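import Pool.Agent.H82.RP.TX

/-! # Row GAP of the board rpw: large gaps -/

set_option autoImplicit false

open Finset Real Filter Topology

namespace Pool.Agent.H82.RPP

open Pool.Agent.H82.RP

/-- growth -/
theorem grow (R c : ℝ) (hc : 0 < c) : ∃ n₀ : ℕ, ∀ n : ℕ, n₀ ≤ n →
    1 ≤ Real.log n ∧ R * Real.log n + 3 ≤ c * n := by
  have h1 : Tendsto (fun n : ℕ => Real.log (n : ℝ)) atTop atTop :=
    Real.tendsto_log_atTop.comp tendsto_natCast_atTop_atTop
  have h2 : (fun n : ℕ => R * Real.log (n : ℝ) + 3) =o[atTop] fun n : ℕ => (n : ℝ) := by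
    have h3 : (fun x : ℝ => Real.log x) =o[atTop] fun x : ℝ => x := Real.isLittleO_log_id_atTop
    have h4 : (fun n : ℕ => Real.log (n : ℝ)) =o[atTop] fun n : ℕ => (n : ℝ) :=
      h3.comp_tendsto tendsto_natCast_atTop_atTop
    refine (h4.const_mul_left R).add ?_
    refine Asymptotics.isLittleO_const_left.2 (Or.inr ?_)
    exact tendsto_norm_atTop_atTop.comp (tendsto_natCast_atTop_atTop (R := ℝ))
  have h5 := h2.bound hc
  have h6 := h1.eventually_ge_atTop 1
  obtain ⟨n₀, h⟩ := Filter.eventually_atTop.1 (h5.and h6)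
  refine ⟨n₀, fun n hn => ⟨(h n hn).2, ?_⟩⟩
  have h7 := (h n hn).1
  rw [Real.norm_eq_abs, Real.norm_natCast] at h7
  exact (le_abs_self _).trans h7

theorem pf_GAP (h1 : T_EW) (h2 : T_DEN) : T_GAP := by
  classical
  intro lam hlam
  obtain ⟨c₀, hc₀, n₁, hn₁⟩ := h2 (1 / 2) 0 (by norm_num)
  obtain ⟨R, hR, n₂, hn₂⟩ := h1 (lam + 1) (c₀ / 4) (by linarith) (by positivity)
  obtain ⟨n₃, hn₃⟩ := grow R (c₀ / 4) (by positivity)
  refine ⟨c₀ / (4 * (R + 2)), by positivity, n₁ + n₂ + n₃ + 3, fun n hn => ?_⟩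
  obtain ⟨hlog1, hlogn⟩ := hn₃ n (by omega)
  set D := (Icc 1 n).filter (fun k : ℕ => 0 < XL (1 / 2) k) with hD
  set F := (Icc 1 n).filter (fun k : ℕ => ∀ m : ℕ, k ≤ m → (m : ℝ) ≤ k + R * Real.log n →
    XL (lam + 1) m ≠ 0) with hF
  set G := (Icc 1 n).filter (fun p : ℕ => p.Prime ∧
    ∀ q : ℕ, p < q → (q : ℝ) ≤ p + lam * Real.log p → ¬ q.Prime) with hG
  have hDc := hn₁ n (by omega)
  have hFc := hn₂ n (by omega)
  set V := ⌊R * Real.log n⌋₊ with hV
  have hlog0 : 0 ≤ R * Real.log n := by positivity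
  have hVle : (V : ℝ) ≤ R * Real.log n := Nat.floor_le hlog0
  -- the good k
  have hsub : D ⊆ F ∪ (Ico (n - V) (n + 1) ∪ G.biUnion fun p => Icc (p - V) p) := by
    intro k hk
    rw [hD, mem_filter, mem_Icc] at hk
    obtain ⟨⟨hk1, hkn⟩, hkX⟩ := hk
    by_cases hkF : k ∈ F
    · exact mem_union_left _ hkF
    refine mem_union_right _ ?_
    by_cases hkV : n - V ≤ k
    · exact mem_union_left _ (mem_Ico.2 ⟨hkV, by omega⟩)
    refine mem_union_right _ ?_
    have hkF' : ¬ (∀ m : ℕ, k ≤ m → (m : ℝ) ≤ k + R * Real.log n → XL (lam + 1) m ≠ 0) := by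
      intro hcon
      exact hkF (by rw [hF, mem_filter, mem_Icc]; exact ⟨⟨hk1, hkn⟩, hcon⟩)
    push Not at hkF'
    obtain ⟨m, hkm, hmR, hm0⟩ := hkF'
    have hmV : m ≤ k + V := by
      have h3 : ((m - k : ℕ) : ℝ) ≤ R * Real.log n := by
        rw [Nat.cast_sub hkm]; linarith
      have h4 : m - k ≤ V := Nat.le_floor h3
      omega
    -- the prime q
    unfold XL at hkX
    obtain ⟨q, hq⟩ := card_pos.1 hkX
    rw [mem_filter, mem_Icc] at hq
    obtain ⟨⟨hq1, hq2⟩, hqp⟩ := hq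
    -- no primes in the window of m
    have hno : ∀ r : ℕ, m ≤ r → r ≤ m + 1 + ⌊(lam + 1) * Real.log (m : ℝ)⌋₊ → ¬ r.Prime := by
      intro r hr1 hr2 hrp
      unfold XL at hm0
      rw [card_eq_zero] at hm0
      have h5 : r ∈ (Icc m (m + 1 + ⌊(lam + 1) * Real.log (m : ℝ)⌋₊)).filter Nat.Prime :=
        mem_filter.2 ⟨mem_Icc.2 ⟨hr1, hr2⟩, hrp⟩
      rw [hm0] at h5
      exact absurd h5 (notMem_empty _)
    have hk0 : (1 : ℝ) ≤ k := by exact_mod_cast hk1
    have hkm' : (k : ℝ) ≤ m := by exact_mod_cast hkm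
    have hlogkm : Real.log (k : ℝ) ≤ Real.log (m : ℝ) := Real.log_le_log (by linarith) hkm'
    have hlogk : 0 ≤ Real.log (k : ℝ) := Real.log_nonneg hk0
    have hqm : q < m := by
      by_contra hcon
      push Not at hcon
      refine hno q hcon ?_ hqp
      have h6 : ⌊(1 / 2 : ℝ) * Real.log (k : ℝ)⌋₊ ≤ ⌊(lam + 1) * Real.log (m : ℝ)⌋₊ := by
        refine Nat.floor_le_floor ?_
        nlinarith
      omega
    -- the largest prime below m
    have hne : ((range m).filter Nat.Prime).Nonempty := ⟨q, mem_filter.2 ⟨mem_range.2 hqm, hqp⟩⟩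
    obtain ⟨p, hp⟩ : ∃ p, p = ((range m).filter Nat.Prime).max' hne := ⟨_, rfl⟩
    have hpm : p ∈ (range m).filter Nat.Prime := by rw [hp]; exact max'_mem _ _
    rw [mem_filter, mem_range] at hpm
    have hqp' : q ≤ p := by
      rw [hp]; exact le_max' _ _ (mem_filter.2 ⟨mem_range.2 hqm, hqp⟩)
    have hmax : ∀ r : ℕ, r.Prime → r < m → r ≤ p := fun r hr1 hr2 => by
      rw [hp]; exact le_max' _ _ (mem_filter.2 ⟨mem_range.2 hr2, hr1⟩)
    rw [mem_biUnion]
    refine ⟨p, ?_, mem_Icc.2 ⟨by omega, by omega⟩⟩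
    rw [hG, mem_filter, mem_Icc]
    refine ⟨⟨hpm.2.one_lt.le, by omega⟩, hpm.2, fun r hr1 hr2 hrp => ?_⟩
    have hrm : m ≤ r := by
      by_contra hcon
      push Not at hcon
      have := hmax r hrp hcon
      omega
    refine hno r hrm ?_ hrp
    have hp0 : (0 : ℝ) < p := by exact_mod_cast hpm.2.pos
    have hpm' : (p : ℝ) ≤ m := by exact_mod_cast hpm.1.le
    have hlogpm : Real.log (p : ℝ) ≤ Real.log (m : ℝ) := Real.log_le_log hp0 hpm'
    have hlogp : 0 ≤ Real.log (p : ℝ) := Real.log_nonneg (by exact_mod_cast hpm.2.one_lt.le)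
    have h7 : (r : ℝ) ≤ m + (lam + 1) * Real.log (m : ℝ) := by nlinarith
    have h8 : ((r - m : ℕ) : ℝ) ≤ (lam + 1) * Real.log (m : ℝ) := by
      rw [Nat.cast_sub hrm]; linarith
    have h9 : r - m ≤ ⌊(lam + 1) * Real.log (m : ℝ)⌋₊ := Nat.le_floor h8
    omega
  have hcard : D.card ≤ F.card + ((V + 1) + G.card * (V + 1)) := by
    refine (card_le_card hsub).trans ((card_union_le _ _).trans ?_)
    refine Nat.add_le_add_left ((card_union_le _ _).trans (Nat.add_le_add ?_ ?_)) _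
    · rw [Nat.card_Ico]; omega
    · refine card_biUnion_le.trans ((sum_le_card_nsmul _ _ (V + 1) fun p _ => ?_).trans
        (le_of_eq (by rw [smul_eq_mul])))
      rw [Nat.card_Icc]; omega
  have hcard' : (D.card : ℝ) ≤ F.card + ((V + 1) + G.card * (V + 1)) := by exact_mod_cast hcard
  have hn0 : (0 : ℝ) ≤ n := Nat.cast_nonneg n
  have h10 : c₀ / 2 * n ≤ G.card * (V + 1) := by linarith
  have h11 : (V : ℝ) + 1 ≤ (R + 2) * Real.log n := by nlinarith
  have h12 : (G.card : ℝ) * (V + 1) ≤ G.card * ((R + 2) * Real.log n) :=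
    mul_le_mul_of_nonneg_left h11 (Nat.cast_nonneg _)
  rw [div_le_iff₀ (by linarith), div_mul_eq_mul_div, div_le_iff₀ (by positivity)]
  nlinarith

end Pool.Agent.H82.RPP
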