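import Pool.Agent.H82.RP.TB
import Pool.Agent.H82.RP.TC
import Pool.Agent.H82.RP.TD

/-! # Row MOM of the board rpw: the choice of the parameters -/

set_option autoImplicit false

open Finset Real ArithmeticFunction Filter Topology
open scoped Nat ArithmeticFunction.Moebius

namespace Pool.Agent.H82.RPP

open Pool.Agent.H82.RP
open Pool.Agent.H30.BV (NX)
open Pool.Agent.H31.MP (RS Rgh Pz Me Om)

/-- monotonicity of the total mass in the intensity -/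
theorem TT_le {z Y : ℝ} {g : ℕ → ℝ} {K : ℕ} {L η : ℝ} (hq : ∀ s, 0 ≤ qq z Y g s) (hL : 0 ≤ L)
    (hη : 0 ≤ η) : TT z Y g K ((1 + η) * L) ≤ (1 + η) ^ K * TT z Y g K L := by
  unfold TT
  rw [Finset.mul_sum]
  refine Finset.sum_le_sum fun s hs => ?_
  have hs' : s ≤ K := by
    have := Finset.mem_range.1 hs
    omega
  have h1 : (1 + η) ^ s ≤ (1 + η) ^ K := pow_le_pow_right₀ (by linarith) hs'
  have h2 : 0 ≤ L ^ s / (s ! : ℝ) * qq z Y g s :=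
    mul_nonneg (div_nonneg (pow_nonneg hL _) (Nat.cast_nonneg _)) (hq s)
  calc ((1 + η) * L) ^ s / (s ! : ℝ) * qq z Y g s
      = (1 + η) ^ s * (L ^ s / (s ! : ℝ) * qq z Y g s) := by rw [mul_pow]; ring
    _ ≤ (1 + η) ^ K * (L ^ s / (s ! : ℝ) * qq z Y g s) := mul_le_mul_of_nonneg_right h1 h2

theorem TT_ge {z Y : ℝ} {g : ℕ → ℝ} {K : ℕ} {L η : ℝ} (hq : ∀ s, 0 ≤ qq z Y g s) (hL : 0 ≤ L)
    (hη : 0 ≤ η) (hη1 : η ≤ 1) :
    (1 - η) ^ K * TT z Y g K L ≤ TT z Y g K ((1 - η) * L) := by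
  unfold TT
  rw [Finset.mul_sum]
  refine Finset.sum_le_sum fun s hs => ?_
  have hs' : s ≤ K := by
    have := Finset.mem_range.1 hs
    omega
  have h1 : (1 - η) ^ K ≤ (1 - η) ^ s := pow_le_pow_of_le_one (by linarith) (by linarith) hs'
  have h2 : 0 ≤ L ^ s / (s ! : ℝ) * qq z Y g s :=
    mul_nonneg (div_nonneg (pow_nonneg hL _) (Nat.cast_nonneg _)) (hq s)
  calc (1 - η) ^ K * (L ^ s / (s ! : ℝ) * qq z Y g s)
      ≤ (1 - η) ^ s * (L ^ s / (s ! : ℝ) * qq z Y g s) := mul_le_mul_of_nonneg_right h1 h2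
    _ = ((1 - η) * L) ^ s / (s ! : ℝ) * qq z Y g s := by rw [mul_pow]; ring

/-- the choice of `η` -/
theorem choose_eta (K : ℕ) (ε : ℝ) (hε : 0 < ε) : ∃ η : ℝ, 0 < η ∧ η ≤ 1 ∧ (1 + η) ^ K ≤ 2 ∧
    (1 + η) * ((1 + η) ^ K) ^ 2 + 4 * η ≤ 1 + ε ∧ (1 + η) * (1 + η) ^ K + 2 * η ≤ 1 + ε ∧
    1 - ε ≤ (1 - η) * (1 - η) ^ K - 2 * η ∧ η ≤ ε / 8 := by
  have c1 : Tendsto (fun η : ℝ => (1 + η) ^ K) (𝓝[>] 0) (𝓝 ((1 + 0) ^ K)) :=
    ((continuous_const.add continuous_id).pow K).continuousAt.continuousWithinAt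
  have c2 : Tendsto (fun η : ℝ => (1 + η) * ((1 + η) ^ K) ^ 2 + 4 * η) (𝓝[>] 0)
      (𝓝 ((1 + 0) * ((1 + 0) ^ K) ^ 2 + 4 * 0)) :=
    (by fun_prop : Continuous fun η : ℝ => (1 + η) * ((1 + η) ^ K) ^ 2 + 4 * η).continuousAt.continuousWithinAt
  have c3 : Tendsto (fun η : ℝ => (1 + η) * (1 + η) ^ K + 2 * η) (𝓝[>] 0)
      (𝓝 ((1 + 0) * (1 + 0) ^ K + 2 * 0)) :=
    (by fun_prop : Continuous fun η : ℝ => (1 + η) * (1 + η) ^ K + 2 * η).continuousAt.continuousWithinAt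
  have c4 : Tendsto (fun η : ℝ => (1 - η) * (1 - η) ^ K - 2 * η) (𝓝[>] 0)
      (𝓝 ((1 - 0) * (1 - 0) ^ K - 2 * 0)) :=
    (by fun_prop : Continuous fun η : ℝ => (1 - η) * (1 - η) ^ K - 2 * η).continuousAt.continuousWithinAt
  have c5 : Tendsto (fun η : ℝ => η) (𝓝[>] 0) (𝓝 0) := tendsto_id.mono_left nhdsWithin_le_nhds
  have e0 : ∀ᶠ η : ℝ in 𝓝[>] 0, 0 < η := eventually_mem_nhdsWithin
  have e1 := c1.eventually (ge_mem_nhds (show (1 + 0 : ℝ) ^ K < 2 by norm_num))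
  have e2 := c2.eventually (ge_mem_nhds (show (1 + 0 : ℝ) * ((1 + 0) ^ K) ^ 2 + 4 * 0 < 1 + ε by
    norm_num; linarith))
  have e3 := c3.eventually (ge_mem_nhds (show (1 + 0 : ℝ) * (1 + 0) ^ K + 2 * 0 < 1 + ε by
    norm_num; linarith))
  have e4 := c4.eventually (le_mem_nhds (show 1 - ε < (1 - 0 : ℝ) * (1 - 0) ^ K - 2 * 0 by
    norm_num; linarith))
  have e5 := c5.eventually (ge_mem_nhds (show (0 : ℝ) < ε / 8 by positivity))
  have e6 := c5.eventually (ge_mem_nhds (show (0 : ℝ) < 1 by norm_num))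
  obtain ⟨η, h⟩ := (e0.and (e1.and (e2.and (e3.and (e4.and (e5.and e6)))))).exists
  exact ⟨η, h.1, h.2.2.2.2.2.2, h.2.1, h.2.2.1, h.2.2.2.1, h.2.2.2.2.1, h.2.2.2.2.2.1⟩


theorem Me_nonneg (z : ℝ) : 0 ≤ Me z := by
  unfold Pool.Agent.H31.MP.Me
  refine Finset.prod_nonneg fun p hp => ?_
  have h1 : 1 ≤ p := (Finset.mem_filter.1 hp).2.one_lt.le
  have h2 : (1 : ℝ) ≤ p := by exact_mod_cast h1
  have h3 : 1 / (p : ℝ) ≤ 1 := by
    rw [div_le_one (by linarith)]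
    exact h2
  linarith

/-- the two masses are those of NUM -/
theorem te_sum (z Y : ℝ) (g : ℕ → ℝ) (K : ℕ) (η L : ℝ) :
    TE z Y g K ((1 + η) * L) = ∑ s ∈ range (K + 1), ((1 + η) * L) ^ s / (s ! : ℝ) *
      (if s < K then 4 / 3 * (s * sg z Y g ^ (s - 1) * lg z Y g / Real.log Y)
        else sg z Y g ^ s) := by
  unfold TE te tq
  rfl

theorem pf_MOM (h1 : T_S1) (h2 : T_S2) (h3 : T_S3) (h4 : T_S4) (h5 : T_GG) (h6 : T_NUM)
    (h7 : T_QQS) : T_MOM := by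
  intro lam ε hlam hε hε1
  obtain ⟨ε₁, hε₁, h6⟩ := h6 (ε / (128 * (lam + 1))) (by positivity)
  obtain ⟨N₀, δg, hN₀, hδg, h5⟩ := h5 lam ε₁ hlam hε₁
  obtain ⟨K, hK, h6⟩ := h6 N₀ hN₀
  obtain ⟨η, hη, hη1, hηK, hηa, hηb, hηc, hηd⟩ := choose_eta K ε hε
  have ht : 0 < lam / 2 := by positivity
  have htl : lam / 2 ≤ lam := by linarith
  obtain ⟨y1, h1⟩ := h1 K η lam (lam / 2) hK hη hη1 ht htl
  obtain ⟨y2, h2⟩ := h2 K η lam (lam / 2) hK hη hη1 ht htl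
  obtain ⟨y3, h3⟩ := h3 K η lam (lam / 2) hK hη hη1 ht htl
  obtain ⟨y₀, hy₀⟩ : ∃ y₀ : ℕ, y₀ = y1 + y2 + y3 + 1 := ⟨_, rfl⟩
  obtain ⟨δ1, hδ1, h1⟩ := h1 y₀ (by omega)
  obtain ⟨δ2, hδ2, h2⟩ := h2 y₀ (by omega)
  obtain ⟨δ3, hδ3, h3⟩ := h3 y₀ (by omega)
  obtain ⟨δ, hδdef⟩ : ∃ δ : ℝ, δ = min (min (min δ1 δ2) (min δ3 δg)) 1 := ⟨_, rfl⟩
  have hδ : 0 < δ := by rw [hδdef]; positivity
  have hδa : δ ≤ δ1 := by rw [hδdef]; exact (min_le_left _ _).trans ((min_le_left _ _).trans (min_le_left _ _))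
  have hδb : δ ≤ δ2 := by rw [hδdef]; exact (min_le_left _ _).trans ((min_le_left _ _).trans (min_le_right _ _))
  have hδc : δ ≤ δ3 := by rw [hδdef]; exact (min_le_left _ _).trans ((min_le_right _ _).trans (min_le_left _ _))
  have hδd : δ ≤ δg := by rw [hδdef]; exact (min_le_left _ _).trans ((min_le_right _ _).trans (min_le_right _ _))
  have hδe : δ ≤ 1 := by rw [hδdef]; exact min_le_right _ _
  have h1 := h1 δ hδ hδa
  have h2 := h2 δ hδ hδb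
  have h3 := h3 δ hδ hδc
  obtain ⟨Zg, h5⟩ := h5 δ hδ hδd
  obtain ⟨C, hC, h4⟩ := h4 K y₀ δ lam hδ hδe hlam
  have hW : (0 : ℝ) < primorial y₀ := by exact_mod_cast primorial_pos y₀
  refine ⟨y₀, 4 * C * primorial y₀, by omega, by positivity, fun R => ?_⟩
  obtain ⟨H₀, hH₀⟩ : ∃ H₀ : ℝ, H₀ = R * lam + lam := ⟨_, rfl⟩
  obtain ⟨Z1, h1⟩ := h1 H₀
  obtain ⟨Z2, h2⟩ := h2 H₀
  obtain ⟨Z3, h3⟩ := h3 H₀
  obtain ⟨Z4, h4⟩ := h4 H₀
  refine ⟨max (max (max Z1 Z2) (max Z3 Z4)) (max Zg (Real.exp (2 / lam + 1))), fun Z hZ => ?_⟩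
  have hZ1 : Z1 ≤ Z := ((le_max_left _ _).trans ((le_max_left _ _).trans (le_max_left _ _))).trans hZ
  have hZ2 : Z2 ≤ Z := ((le_max_right _ _).trans ((le_max_left _ _).trans (le_max_left _ _))).trans hZ
  have hZ3 : Z3 ≤ Z := ((le_max_left _ _).trans ((le_max_right _ _).trans (le_max_left _ _))).trans hZ
  have hZ4 : Z4 ≤ Z := ((le_max_right _ _).trans ((le_max_right _ _).trans (le_max_left _ _))).trans hZ
  have hZg : Zg ≤ Z := ((le_max_left _ _).trans (le_max_right _ _)).trans hZ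
  have hZe : Real.exp (2 / lam + 1) ≤ Z := ((le_max_right _ _).trans (le_max_right _ _)).trans hZ
  have hZ0 : 0 < Z := (Real.exp_pos _).trans_le hZe
  have hlog : 2 / lam + 1 ≤ Real.log Z := (Real.le_log_iff_exp_le hZ0).2 hZe
  have hlam2 : 0 < 2 / lam := by positivity
  have hL0 : 0 < Real.log Z := by linarith
  have hZ1' : 1 < Z := by
    rw [← Real.exp_log hZ0]
    exact Real.one_lt_exp_iff.2 hL0
  obtain ⟨g, hg, hg1, hg2⟩ := h5 Z hZg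
  obtain ⟨m, hm⟩ : ∃ m : ℕ, m = ⌊lam * Real.log Z⌋₊ := ⟨_, rfl⟩
  have hm1 : (m : ℝ) ≤ lam * Real.log Z := by
    rw [hm]; exact Nat.floor_le (by positivity)
  have hm2 : lam / 2 * Real.log Z ≤ m := by
    have h8 : lam * Real.log Z - 1 < m := by
      rw [hm]; exact Nat.sub_one_lt_floor _
    have h9 : 2 ≤ lam * Real.log Z := by
      have h10 : lam * (2 / lam + 1) ≤ lam * Real.log Z := mul_le_mul_of_nonneg_left hlog hlam.le
      have h11 : lam * (2 / lam + 1) = 2 + lam := by field_simp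
      linarith
    linarith
  have hH : ∀ i < R, ((i * m + m : ℕ) : ℝ) ≤ H₀ * Real.log Z := by
    intro i hi
    push_cast
    have h8 : (i : ℝ) ≤ R := by exact_mod_cast hi.le
    rw [hH₀]
    have h9 : (i : ℝ) * m ≤ R * (lam * Real.log Z) :=
      mul_le_mul h8 hm1 (Nat.cast_nonneg _) (Nat.cast_nonneg _)
    have h10 : ((R : ℝ) * lam + lam) * Real.log Z =
      R * (lam * Real.log Z) + lam * Real.log Z := by ring
    linarith
  have hY : 1 < Z ^ (1 / 8 : ℝ) := Real.one_lt_rpow hZ1' (by norm_num)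
  have hlY : 0 < Real.log (Z ^ (1 / 8 : ℝ)) := Real.log_pos hY
  obtain ⟨L, hL⟩ : ∃ L : ℝ, L = m * Me (Z ^ δ) := ⟨_, rfl⟩
  have hMe := Me_nonneg (Z ^ δ)
  have hLn : 0 ≤ L := by rw [hL]; positivity
  have hLle : L ≤ lam * Real.log Z * Me (Z ^ δ) := by
    rw [hL]; exact mul_le_mul_of_nonneg_right hm1 hMe
  have hq := fun s => h7 (Z ^ δ) (Z ^ (1 / 8 : ℝ)) g s hY hg
  have hsg : 0 ≤ sg (Z ^ δ) (Z ^ (1 / 8 : ℝ)) g := (hq 0).2.2.2.1
  have hlg : 0 ≤ lg (Z ^ δ) (Z ^ (1 / 8 : ℝ)) g := (hq 0).2.2.2.2.2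
  obtain ⟨n1, n2⟩ := h6 η L (sg (Z ^ δ) (Z ^ (1 / 8 : ℝ)) g) (lg (Z ^ δ) (Z ^ (1 / 8 : ℝ)) g)
    (Real.log (Z ^ (1 / 8 : ℝ))) (qq (Z ^ δ) (Z ^ (1 / 8 : ℝ)) g) hη.le hηK hLn hsg hlg hlY
    ((mul_le_mul_of_nonneg_right hLle hsg).trans hg1)
    ((mul_le_mul_of_nonneg_right hLle hlg).trans hg2)
    (fun s => by
      have := (hq s).2.2.1
      unfold tq at this
      exact this)
  obtain ⟨T0, hT0⟩ : ∃ T0 : ℝ, T0 = TT (Z ^ δ) (Z ^ (1 / 8 : ℝ)) g K L := ⟨_, rfl⟩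
  have hT0h : 1 / 2 ≤ T0 := by rw [hT0]; exact n1
  have hTE : TE (Z ^ δ) (Z ^ (1 / 8 : ℝ)) g K ((1 + η) * L) ≤ ε / (128 * (lam + 1)) * T0 := by
    rw [te_sum, hT0]; exact n2
  have hTu : TT (Z ^ δ) (Z ^ (1 / 8 : ℝ)) g K ((1 + η) * L) ≤ (1 + η) ^ K * T0 := by
    rw [hT0]; exact TT_le (fun s => (hq s).1) hLn hη.le
  have hTl : (1 - η) ^ K * T0 ≤ TT (Z ^ δ) (Z ^ (1 / 8 : ℝ)) g K ((1 - η) * L) := by
    rw [hT0]; exact TT_ge (fun s => (hq s).1) hLn hη.le hη1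
  have hT0p : 0 < T0 := by linarith
  have hN : 0 ≤ (NX Z : ℝ) / primorial y₀ := by positivity
  have hTq : 1 ≤ 4 * T0 ^ 2 := by
    have : (1 / 2 : ℝ) ^ 2 ≤ T0 ^ 2 := pow_le_pow_left₀ (by norm_num) hT0h 2
    linarith
  have hT2 : η ≤ 4 * η * T0 ^ 2 := by
    have := mul_le_mul_of_nonneg_left hTq hη.le
    linarith
  have hT1 : η ≤ 2 * η * T0 := by
    have := mul_le_mul_of_nonneg_left hT0h hη.le
    linarith
  refine ⟨T0, fun i n => tw m y₀ K (Z ^ δ) (Z ^ (1 / 8 : ℝ)) g (i * m) n ^ 2, hT0p,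
    fun i n => sq_nonneg _, ?_, ?_, ?_, ?_⟩
  · intro i hi
    obtain ⟨a1, a2⟩ := h1 Z hZ1 m (i * m) g hg hm2 hm1 (hH i hi)
    rw [← hL] at a1 a2
    constructor
    · refine le_trans ?_ a1
      rw [show (1 - ε) * ((NX Z : ℝ) / primorial y₀ * T0) =
        (NX Z : ℝ) / primorial y₀ * ((1 - ε) * T0) by ring]
      refine mul_le_mul_of_nonneg_left ?_ hN
      have b1 : (1 - η) * ((1 - η) ^ K * T0) ≤
          (1 - η) * TT (Z ^ δ) (Z ^ (1 / 8 : ℝ)) g K ((1 - η) * L) :=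
        mul_le_mul_of_nonneg_left hTl (by linarith)
      have b2 : (1 - ε) * T0 ≤ ((1 - η) * (1 - η) ^ K - 2 * η) * T0 :=
        mul_le_mul_of_nonneg_right hηc hT0p.le
      have b3 : ((1 - η) * (1 - η) ^ K - 2 * η) * T0 =
          (1 - η) * ((1 - η) ^ K * T0) - 2 * η * T0 := by ring
      linarith
    · refine a2.trans ?_
      rw [show (1 + ε) * ((NX Z : ℝ) / primorial y₀ * T0) =
        (NX Z : ℝ) / primorial y₀ * ((1 + ε) * T0) by ring]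
      refine mul_le_mul_of_nonneg_left ?_ hN
      have b1 : (1 + η) * TT (Z ^ δ) (Z ^ (1 / 8 : ℝ)) g K ((1 + η) * L) ≤
          (1 + η) * ((1 + η) ^ K * T0) := mul_le_mul_of_nonneg_left hTu (by linarith)
      have b2 : ((1 + η) * (1 + η) ^ K + 2 * η) * T0 ≤ (1 + ε) * T0 :=
        mul_le_mul_of_nonneg_right hηb hT0p.le
      have b3 : ((1 + η) * (1 + η) ^ K + 2 * η) * T0 =
          (1 + η) * ((1 + η) ^ K * T0) + 2 * η * T0 := by ring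
      linarith
  · have key : ∀ i i' : ℕ, i' < R → i < i' →
        ∑ n ∈ Om Z y₀, tw m y₀ K (Z ^ δ) (Z ^ (1 / 8 : ℝ)) g (i * m) n ^ 2 *
          tw m y₀ K (Z ^ δ) (Z ^ (1 / 8 : ℝ)) g (i' * m) n ^ 2 ≤
        (1 + ε) * (NX Z / primorial y₀ * T0 ^ 2) := by
      intro i i' hi' hii
      have hmm : i * m + m ≤ i' * m := by
        have := Nat.mul_le_mul_right m (show i + 1 ≤ i' from hii)
        rw [Nat.add_mul, Nat.one_mul] at this
        exact this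
      have a1 := h3 Z hZ3 m (i * m) (i' * m) g hg hm2 hm1 (hH i' hi') hmm
      rw [← hL] at a1
      refine a1.trans ?_
      rw [show (1 + ε) * ((NX Z : ℝ) / primorial y₀ * T0 ^ 2) =
        (NX Z : ℝ) / primorial y₀ * ((1 + ε) * T0 ^ 2) by ring]
      refine mul_le_mul_of_nonneg_left ?_ hN
      have hTp : 0 ≤ TT (Z ^ δ) (Z ^ (1 / 8 : ℝ)) g K ((1 + η) * L) := by
        unfold TT
        exact Finset.sum_nonneg fun s _ => mul_nonneg (div_nonneg (pow_nonneg (by positivity) _)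
          (Nat.cast_nonneg _)) (hq s).1
      have b0 : TT (Z ^ δ) (Z ^ (1 / 8 : ℝ)) g K ((1 + η) * L) ^ 2 ≤
          ((1 + η) ^ K * T0) ^ 2 := pow_le_pow_left₀ hTp hTu 2
      have b1 : (1 + η) * TT (Z ^ δ) (Z ^ (1 / 8 : ℝ)) g K ((1 + η) * L) ^ 2 ≤
          (1 + η) * ((1 + η) ^ K * T0) ^ 2 := mul_le_mul_of_nonneg_left b0 (by linarith)
      have b2 : ((1 + η) * ((1 + η) ^ K) ^ 2 + 4 * η) * T0 ^ 2 ≤ (1 + ε) * T0 ^ 2 :=
        mul_le_mul_of_nonneg_right hηa (sq_nonneg _)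
      have b3 : ((1 + η) * ((1 + η) ^ K) ^ 2 + 4 * η) * T0 ^ 2 =
          (1 + η) * ((1 + η) ^ K * T0) ^ 2 + 4 * η * T0 ^ 2 := by ring
      linarith
    intro i hi i' hi' hne
    rcases lt_or_gt_of_ne hne with h | h
    · exact key i i' hi' h
    · have := key i' i hi h
      refine le_trans (le_of_eq ?_) this
      exact Finset.sum_congr rfl fun n _ => mul_comm _ _
  · intro i hi
    have a1 := h4 Z hZ4 m (i * m) g (fun b => ⟨hg.nn b, hg.le b⟩) hm1 (hH i hi)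
    have e1 : ∑ n ∈ Om Z y₀, (tw m y₀ K (Z ^ δ) (Z ^ (1 / 8 : ℝ)) g (i * m) n ^ 2) ^ 2 =
        ∑ n ∈ Om Z y₀, tw m y₀ K (Z ^ δ) (Z ^ (1 / 8 : ℝ)) g (i * m) n ^ 4 :=
      Finset.sum_congr rfl fun n _ => by ring
    rw [e1]
    refine a1.trans ?_
    have e2 : 4 * C * (primorial y₀ : ℝ) * (NX Z / primorial y₀ * T0 ^ 2) =
        C * NX Z * (4 * T0 ^ 2) := by field_simp
    rw [e2]
    have hCN : 0 ≤ C * NX Z := by positivity
    have := mul_le_mul_of_nonneg_left hTq hCN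
    linarith
  · intro i hi
    have a1 := h2 Z hZ2 m (i * m) g hg hm2 hm1 (hH i hi)
    rw [← hL] at a1
    rw [← hm]
    refine a1.trans ?_
    rw [show ε * ((NX Z : ℝ) / primorial y₀ * T0) =
      (NX Z : ℝ) / primorial y₀ * (ε * T0) by ring]
    refine mul_le_mul_of_nonneg_left ?_ hN
    have b1 : 32 * lam * TE (Z ^ δ) (Z ^ (1 / 8 : ℝ)) g K ((1 + η) * L) ≤
        32 * lam * (ε / (128 * (lam + 1)) * T0) := mul_le_mul_of_nonneg_left hTE (by positivity)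
    have b2 : 32 * lam * (ε / (128 * (lam + 1)) * T0) ≤ ε / 4 * T0 := by
      have e3 : 32 * lam * (ε / (128 * (lam + 1)) * T0) = (lam / (lam + 1)) * (ε / 4 * T0) := by
        field_simp
        ring
      rw [e3]
      have e4 : lam / (lam + 1) ≤ 1 := by
        rw [div_le_one (by linarith)]
        linarith
      have e5 : 0 ≤ ε / 4 * T0 := by positivity
      have := mul_le_mul_of_nonneg_right e4 e5
      linarith
    have b3 : 2 * η * T0 ≤ ε / 4 * T0 := mul_le_mul_of_nonneg_right (by linarith) hT0p.le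
    have b4 : 0 ≤ ε * T0 := by positivity
    linarith

end Pool.Agent.H82.RPP
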