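import Pool.Agent.H1.RPW.IEH
import Pool.Agent.H13.RPW.ZEL
import Pool.Agent.H16.RP.VSL
import Pool.Agent.H17.RP.VSU
import Pool.Agent.H20.RP.IVI
import Pool.Agent.H20.RP.VCR
import Pool.Agent.H21.RPW.IGT
import Pool.Agent.H21.RPW.QEE
import Pool.Agent.H21.RPW.S1
import Pool.Agent.H3.RP.GG
import Pool.Agent.H3.RP.QQS
import Pool.Agent.H31.MP.All
import Pool.Agent.H36.RP.DGI
import Pool.Agent.H4.RP.S2
import Pool.Agent.H46.RP.EXP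
import Pool.Agent.H49.RP.QHH
import Pool.Agent.H49.RP.TPE
import Pool.Agent.H50.RP.DEN
import Pool.Agent.H50.RP.NUM
import Pool.Agent.H50.RP.QYI
import Pool.Agent.H54.RP.IUQ
import Pool.Agent.H54.RP.RJ
import Pool.Agent.H54.RP.SAH
import Pool.Agent.H54.RP.TEN
import Pool.Agent.H60.RP.ZPL
import Pool.Agent.H61.RP.LBH
import Pool.Agent.H66.RP.S4
import Pool.Agent.H73.RP.ZOL
import Pool.Agent.H79.RP.ZCL
import Pool.Agent.H82.RPP.FIN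
import Pool.Agent.H82.RPP.GAP
import Pool.Agent.H82.RPP.MOM
import Pool.Agent.H86.RP.S3
import Pool.Agent.H89.RP.EW
import Pool.Agent.H89.RP.IXX
import Pool.Agent.H96.RPW.BZQ
import Pool.Agent.H96.RPW.QKQ
import Pool.Agent.H96.RPW.VRI

/-!
# MP_76b9e7_nt, board rpw_modules: assembly

Maynard type weights which repel primes from a window; every number of primes has positive
proportion.
-/

set_option autoImplicit false

namespace Pool.Agent.H82.RPP.All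

open Pool.Agent.H82.RP

theorem tBZQ : T_BZQ := Pool.Agent.H96.RPW.pf_BZQ
theorem tQKQ : T_QKQ := Pool.Agent.H96.RPW.pf_QKQ tBZQ Pool.Agent.H19.BV.lv_mod Pool.Agent.H62.BV.lj
theorem tIEH : T_IEH := Pool.Agent.H1.RPW.pf_IEH Pool.Agent.H31.MP.All.tINT
  Pool.Agent.H31.MP.All.tSQ Pool.Agent.H31.MP.All.tLE Pool.Agent.H31.MP.All.tNC
  Pool.Agent.H31.MP.All.tQC Pool.Agent.H31.MP.All.tSD Pool.Agent.H31.MP.All.tDVK
theorem tIUQ : T_IUQ := Pool.Agent.H54.RP.pf_IUQ tIEH Pool.Agent.H31.MP.All.bBL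
  Pool.Agent.H31.MP.All.bBU tQKQ Pool.Agent.H31.MP.All.tSD Pool.Agent.H31.MP.All.tDG
theorem tDGI : T_DGI := Pool.Agent.H36.RP.pf_DGI
theorem tIVI : T_IVI := Pool.Agent.H20.RP.pf_IVI
theorem tRJ : T_RJ := Pool.Agent.H54.RP.pf_RJ
theorem tLBH : T_LBH := Pool.Agent.H61.RP.pf_LBH Pool.Agent.H31.MP.All.tQO
theorem tVRI : T_VRI := Pool.Agent.H96.RPW.VRI.pf_VRI
theorem tSAH : T_SAH := Pool.Agent.H54.RP.pf_SAH Pool.Agent.H31.MP.All.tDVK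
theorem tZPL : T_ZPL := Pool.Agent.H60.RP.pf_ZPL
theorem tZEL : T_ZEL := Pool.Agent.H13.RPW.pf_ZEL
theorem tZCL : T_ZCL := Pool.Agent.H79.RP.pf_ZCL tZPL
theorem tZOL : T_ZOL := Pool.Agent.H73.RP.pf_ZOL tZCL tZEL
theorem tIGT : T_IGT := Pool.Agent.H21.RPW.pf_IGT tIUQ Pool.Agent.H31.MP.All.tDG
theorem tIXX : T_IXX := Pool.Agent.H89.RP.pf_IXX tIGT
theorem tEXP : T_EXP := Pool.Agent.H46.RP.pf_EXP tIGT tIXX
theorem tQYI : T_QYI := Pool.Agent.H50.RP.pf_QYI tDGI tIVI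
theorem tTEN : T_TEN := Pool.Agent.H54.RP.pf_TEN
theorem tQHH : T_QHH := Pool.Agent.H49.RP.pf_QHH tQYI
theorem tQQS : T_QQS := Pool.Agent.H3.RP.pf_QQS
theorem tQEE : T_QEE := Pool.Agent.H21.RPW.QE.pf_QEE tQYI tQQS
theorem tTPE : T_TPE := Pool.Agent.H49.RP.pf_TPE
theorem tGG : T_GG := Pool.Agent.H3.RP.pf_GG Pool.Agent.H31.MP.All.tMR Pool.Agent.H31.MP.All.tGL
  Pool.Agent.H31.MP.All.tGU Pool.Agent.H31.MP.All.tLC Pool.Agent.H31.MP.All.tLD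
theorem tNUM : T_NUM := Pool.Agent.H50.RP.pf_NUM
theorem tVSU : T_VSU := Pool.Agent.H17.RP.pf_VSU tVRI tSAH Pool.Agent.H31.MP.All.tVV
theorem tVSL : T_VSL := Pool.Agent.H16.RP.pf_VSL tVRI Pool.Agent.H31.MP.All.tVV
theorem tVCR : T_VCR := Pool.Agent.H20.RP.pf_VCR tVSU tVRI
theorem tS1 : T_S1 := Pool.Agent.H21.RPW.SA.pf_S1 tEXP tQHH tQQS tLBH tVSU tVSL tVCR
  Pool.Agent.H31.MP.All.tMR tVRI
theorem tS2 : T_S2 := Pool.Agent.H4.RP.pf_S2 tEXP tQEE tQQS tLBH tVSU tVCR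
  Pool.Agent.H31.MP.All.tMR tVRI tTPE tRJ Pool.Agent.H31.MP.All.tRH
theorem tS3 : T_S3 := Pool.Agent.H86.RP.pf_S3 tEXP tQHH tQQS tLBH tVSU tVCR
  Pool.Agent.H31.MP.All.tMR tVRI tTEN
theorem tS4 : T_S4 := Pool.Agent.H66.RP.pf_S4 tLBH Pool.Agent.H31.MP.All.tMO
theorem tMOM : T_MOM := Pool.Agent.H82.RPP.pf_MOM tS1 tS2 tS3 tS4 tGG tNUM tQQS
theorem tEW : T_EW := Pool.Agent.H89.RP.pf_EW tMOM
theorem tDEN : T_DEN := Pool.Agent.H50.RP.pf_DEN Pool.Agent.H31.MP.All.tMX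
theorem tFIN : T_FIN := Pool.Agent.H82.RPP.pf_FIN tEW tDEN tZOL
theorem tGAP : T_GAP := Pool.Agent.H82.RPP.pf_GAP tEW tDEN

end Pool.Agent.H82.RPP.All
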