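import Pool.Agent.H82.RPP.GAP

/-! # Board rpw: the windows which start at a prime -/

set_option autoImplicit false

open Finset Real Filter Topology

namespace Pool.Agent.H82.RPP

open Pool.Agent.H82.RP

/-- The number of primes in `(p, p + lam log p]`. -/
noncomputable def YL (lam : ℝ) (p : ℕ) : ℕ :=
  ((Icc (p + 1) (p + ⌊lam * Real.log (p : ℝ)⌋₊)).filter Nat.Prime).card

/-- Every number of primes occurs for a positive proportion of the windows which start at a
prime. -/
def T_PAL : Prop := ∀ (lam : ℝ) (j : ℕ), 0 < lam → ∃ c : ℝ, 0 < c ∧ ∃ n₀ : ℕ, ∀ n : ℕ, n₀ ≤ n →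
  c * n / Real.log n ≤ ((((Icc 1 n).filter (fun p : ℕ => p.Prime ∧ YL lam p = j)).card : ℕ) : ℝ)

/-- Passing to the next prime, at most one prime is lost. -/
theorem YL_step {lam : ℝ} (hlam : 0 < lam) {p q : ℕ} (hp : 1 ≤ p) (hpq : p < q)
    (hno : ∀ r : ℕ, r.Prime → r < q → r ≤ p) : YL lam p ≤ YL lam q + 1 := by
  have hp0 : (0 : ℝ) < p := by exact_mod_cast hp
  have h1 : ⌊lam * Real.log (p : ℝ)⌋₊ ≤ ⌊lam * Real.log (q : ℝ)⌋₊ := by
    refine Nat.floor_le_floor ?_
    refine mul_le_mul_of_nonneg_left (Real.log_le_log hp0 ?_) hlam.le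
    exact_mod_cast hpq.le
  unfold YL
  have h2 : (Icc (p + 1) (p + ⌊lam * Real.log (p : ℝ)⌋₊)).filter Nat.Prime ⊆
      insert q ((Icc (q + 1) (q + ⌊lam * Real.log (q : ℝ)⌋₊)).filter Nat.Prime) := by
    intro r hr
    rw [mem_filter, mem_Icc] at hr
    rw [mem_insert, mem_filter, mem_Icc]
    by_cases h : r = q
    · exact Or.inl h
    · right
      have h3 : q < r := by
        by_contra hcon
        push Not at hcon
        have h4 := hno r hr.2 (lt_of_le_of_ne hcon h)
        omega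
      exact ⟨⟨by omega, by omega⟩, hr.2⟩
  exact (card_le_card h2).trans (card_insert_le _ _)

theorem pf_PAL (h1 : T_EW) (h2 : T_DEN) : T_PAL := by
  classical
  intro lam j hlam
  obtain ⟨c₀, hc₀, n₁, hn₁⟩ := h2 (lam / 2) (j + 1) (by positivity)
  obtain ⟨R, hR, n₂, hn₂⟩ := h1 (lam + 1) (c₀ / 4) (by linarith) (by positivity)
  obtain ⟨K, hK⟩ : ∃ K, K = ⌈Real.exp (2 / lam)⌉₊ := ⟨_, rfl⟩
  obtain ⟨n₃, hn₃⟩ := grow R (c₀ / 8) (by positivity)
  obtain ⟨n₄, hn₄⟩ : ∃ n₄ : ℕ, 8 * K / c₀ ≤ (n₄ : ℝ) := exists_nat_ge _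
  refine ⟨c₀ / (8 * (R + 2)), by positivity, n₁ + n₂ + n₃ + n₄ + 3, fun n hn => ?_⟩
  obtain ⟨hlog1, hlogn⟩ := hn₃ n (by omega)
  set D := (Icc 1 n).filter (fun k : ℕ => j + 1 < XL (lam / 2) k) with hD
  set F := (Icc 1 n).filter (fun k : ℕ => ∀ m : ℕ, k ≤ m → (m : ℝ) ≤ k + R * Real.log n →
    XL (lam + 1) m ≠ 0) with hF
  set G := (Icc 1 n).filter (fun p : ℕ => p.Prime ∧ YL lam p = j) with hG
  have hDc := hn₁ n (by omega)
  have hFc := hn₂ n (by omega)
  set V := ⌊R * Real.log n⌋₊ with hV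
  have hlog0 : 0 ≤ R * Real.log n := by positivity
  have hVle : (V : ℝ) ≤ R * Real.log n := Nat.floor_le hlog0
  -- the good k
  have hsub : D ⊆ F ∪ (range K ∪ (Ico (n - V) (n + 1) ∪ G.biUnion fun p => Icc (p - V) p)) := by
    intro k hk
    rw [hD, mem_filter, mem_Icc] at hk
    obtain ⟨⟨hk1, hkn⟩, hkX⟩ := hk
    by_cases hkF : k ∈ F
    · exact mem_union_left _ hkF
    refine mem_union_right _ ?_
    by_cases hkK : k < K
    · exact mem_union_left _ (mem_range.2 hkK)
    refine mem_union_right _ ?_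
    by_cases hkV : n - V ≤ k
    · exact mem_union_left _ (mem_Ico.2 ⟨hkV, by omega⟩)
    refine mem_union_right _ ?_
    have hkF' : ¬ (∀ m : ℕ, k ≤ m → (m : ℝ) ≤ k + R * Real.log n → XL (lam + 1) m ≠ 0) := by
      intro hcon
      exact hkF (by rw [hF, mem_filter, mem_Icc]; exact ⟨⟨hk1, hkn⟩, hcon⟩)
    push Not at hkF'
    obtain ⟨m, hkm, hmR, hm0⟩ := hkF'
    have hmV : m ≤ k + V := by
      have h3 : ((m - k : ℕ) : ℝ) ≤ R * Real.log n := by
        rw [Nat.cast_sub hkm]; linarith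
      have h4 : m - k ≤ V := Nat.le_floor h3
      omega
    have hk0 : (1 : ℝ) ≤ k := by exact_mod_cast hk1
    have hkm' : (k : ℝ) ≤ m := by exact_mod_cast hkm
    have hlogkm : Real.log (k : ℝ) ≤ Real.log (m : ℝ) := Real.log_le_log (by linarith) hkm'
    have hlogk : 0 ≤ Real.log (k : ℝ) := Real.log_nonneg hk0
    -- `k` is large
    have hklarge : 1 ≤ lam / 2 * Real.log (k : ℝ) := by
      have h3 : Real.exp (2 / lam) ≤ k := by
        refine (Nat.le_ceil _).trans ?_
        rw [← hK]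
        exact_mod_cast not_lt.1 hkK
      have h4 : 2 / lam ≤ Real.log (k : ℝ) := (Real.le_log_iff_exp_le (by linarith)).2 h3
      rw [div_le_iff₀ hlam] at h4
      linarith
    -- the first prime of the window of `k`
    unfold XL at hkX
    set S := (Icc k (k + 1 + ⌊lam / 2 * Real.log (k : ℝ)⌋₊)).filter Nat.Prime with hS
    have hSne : S.Nonempty := card_pos.1 (by omega)
    obtain ⟨q, hq⟩ : ∃ q, q = S.min' hSne := ⟨_, rfl⟩
    have hqS : q ∈ S := by rw [hq]; exact min'_mem _ _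
    have hqmin : ∀ r ∈ S, q ≤ r := fun r hr => by rw [hq]; exact min'_le _ _ hr
    have hqS' := hqS
    rw [hS, mem_filter, mem_Icc] at hqS'
    obtain ⟨⟨hq1, hq2⟩, hqp⟩ := hqS'
    -- no primes in the window of m
    have hno : ∀ r : ℕ, m ≤ r → r ≤ m + 1 + ⌊(lam + 1) * Real.log (m : ℝ)⌋₊ → ¬ r.Prime := by
      intro r hr1 hr2 hrp
      unfold XL at hm0
      rw [card_eq_zero] at hm0
      have h5 : r ∈ (Icc m (m + 1 + ⌊(lam + 1) * Real.log (m : ℝ)⌋₊)).filter Nat.Prime :=
        mem_filter.2 ⟨mem_Icc.2 ⟨hr1, hr2⟩, hrp⟩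
      rw [hm0] at h5
      exact absurd h5 (notMem_empty _)
    have hqm : q < m := by
      by_contra hcon
      push Not at hcon
      refine hno q hcon ?_ hqp
      have h6 : ⌊lam / 2 * Real.log (k : ℝ)⌋₊ ≤ ⌊(lam + 1) * Real.log (m : ℝ)⌋₊ := by
        refine Nat.floor_le_floor ?_
        have e1 : lam / 2 * Real.log (k : ℝ) ≤ lam / 2 * Real.log (m : ℝ) :=
          mul_le_mul_of_nonneg_left hlogkm (by positivity)
        have e2 : lam / 2 * Real.log (m : ℝ) ≤ (lam + 1) * Real.log (m : ℝ) :=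
          mul_le_mul_of_nonneg_right (by linarith) (hlogk.trans hlogkm)
        linarith
      omega
    -- the window of `q` has more than `j` primes
    have hYq : j + 1 ≤ YL lam q := by
      have h3 : S.erase q ⊆ (Icc (q + 1) (q + ⌊lam * Real.log (q : ℝ)⌋₊)).filter Nat.Prime := by
        intro r hr
        rw [mem_erase] at hr
        obtain ⟨hrq, hrS⟩ := hr
        have hqr := hqmin r hrS
        rw [hS, mem_filter, mem_Icc] at hrS
        rw [mem_filter, mem_Icc]
        refine ⟨⟨by omega, ?_⟩, hrS.2⟩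
        have h4 : 1 + ⌊lam / 2 * Real.log (k : ℝ)⌋₊ ≤ ⌊lam * Real.log (q : ℝ)⌋₊ := by
          refine Nat.le_floor ?_
          push_cast
          have e1 : (⌊lam / 2 * Real.log (k : ℝ)⌋₊ : ℝ) ≤ lam / 2 * Real.log (k : ℝ) :=
            Nat.floor_le (by positivity)
          have e2 : Real.log (k : ℝ) ≤ Real.log (q : ℝ) :=
            Real.log_le_log (by linarith) (by exact_mod_cast hq1)
          have e3 : lam * Real.log (k : ℝ) ≤ lam * Real.log (q : ℝ) :=
            mul_le_mul_of_nonneg_left e2 hlam.le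
          linarith
        omega
      have h4 := card_le_card h3
      rw [card_erase_of_mem hqS] at h4
      unfold YL
      omega
    -- the largest prime below m
    have hne : ((range m).filter Nat.Prime).Nonempty := ⟨q, mem_filter.2 ⟨mem_range.2 hqm, hqp⟩⟩
    obtain ⟨p, hp⟩ : ∃ p, p = ((range m).filter Nat.Prime).max' hne := ⟨_, rfl⟩
    have hpm : p ∈ (range m).filter Nat.Prime := by rw [hp]; exact max'_mem _ _
    rw [mem_filter, mem_range] at hpm
    have hqp' : q ≤ p := by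
      rw [hp]; exact le_max' _ _ (mem_filter.2 ⟨mem_range.2 hqm, hqp⟩)
    have hmax : ∀ r : ℕ, r.Prime → r < m → r ≤ p := fun r hr1 hr2 => by
      rw [hp]; exact le_max' _ _ (mem_filter.2 ⟨mem_range.2 hr2, hr1⟩)
    have hYp : YL lam p = 0 := by
      unfold YL
      rw [card_eq_zero, filter_eq_empty_iff]
      intro r hr hrp
      rw [mem_Icc] at hr
      have hrm : m ≤ r := by
        by_contra hcon
        push Not at hcon
        have := hmax r hrp hcon
        omega
      refine hno r hrm ?_ hrp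
      have hp0 : (0 : ℝ) < p := by exact_mod_cast hpm.2.pos
      have hpm' : (p : ℝ) ≤ m := by exact_mod_cast hpm.1.le
      have hlogpm : Real.log (p : ℝ) ≤ Real.log (m : ℝ) := Real.log_le_log hp0 hpm'
      have h7 : ⌊lam * Real.log (p : ℝ)⌋₊ ≤ ⌊(lam + 1) * Real.log (m : ℝ)⌋₊ := by
        refine Nat.floor_le_floor ?_
        have e1 : lam * Real.log (p : ℝ) ≤ lam * Real.log (m : ℝ) :=
          mul_le_mul_of_nonneg_left hlogpm hlam.le
        have e2 : lam * Real.log (m : ℝ) ≤ (lam + 1) * Real.log (m : ℝ) :=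
          mul_le_mul_of_nonneg_right (by linarith) (hlogk.trans hlogkm)
        linarith
      omega
    -- the first prime after `q` whose window has at most `j` primes
    set T := (range m).filter (fun r : ℕ => r.Prime ∧ q ≤ r ∧ YL lam r ≤ j) with hT
    have hTne : T.Nonempty := ⟨p, by
      rw [hT, mem_filter, mem_range]
      exact ⟨hpm.1, hpm.2, hqp', by omega⟩⟩
    obtain ⟨u, hu⟩ : ∃ u, u = T.min' hTne := ⟨_, rfl⟩
    have huT : u ∈ T := by rw [hu]; exact min'_mem _ _
    have humin : ∀ r ∈ T, u ≤ r := fun r hr => by rw [hu]; exact min'_le _ _ hr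
    rw [hT, mem_filter, mem_range] at huT
    obtain ⟨hum, hup, hqu, huY⟩ := huT
    have hqu' : q < u := by
      rcases Nat.lt_or_ge q u with h | h
      · exact h
      · have : q = u := le_antisymm hqu h
        rw [← this] at huY
        omega
    have hne2 : ((range u).filter Nat.Prime).Nonempty :=
      ⟨q, mem_filter.2 ⟨mem_range.2 hqu', hqp⟩⟩
    obtain ⟨v, hv⟩ : ∃ v, v = ((range u).filter Nat.Prime).max' hne2 := ⟨_, rfl⟩
    have hvu : v ∈ (range u).filter Nat.Prime := by rw [hv]; exact max'_mem _ _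
    rw [mem_filter, mem_range] at hvu
    have hqv : q ≤ v := by
      rw [hv]; exact le_max' _ _ (mem_filter.2 ⟨mem_range.2 hqu', hqp⟩)
    have hvmax : ∀ r : ℕ, r.Prime → r < u → r ≤ v := fun r hr1 hr2 => by
      rw [hv]; exact le_max' _ _ (mem_filter.2 ⟨mem_range.2 hr2, hr1⟩)
    have hvY : j + 1 ≤ YL lam v := by
      by_contra hcon
      push Not at hcon
      have h3 : v ∈ T := by
        rw [hT, mem_filter, mem_range]
        exact ⟨by omega, hvu.2, hqv, by omega⟩
      have h4 := humin v h3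
      omega
    have hstep := YL_step hlam hvu.2.one_lt.le hvu.1 hvmax
    rw [mem_biUnion]
    refine ⟨u, ?_, mem_Icc.2 ⟨by omega, by omega⟩⟩
    rw [hG, mem_filter, mem_Icc]
    exact ⟨⟨hup.one_lt.le, by omega⟩, hup, by omega⟩
  have hcard : D.card ≤ F.card + (K + ((V + 1) + G.card * (V + 1))) := by
    refine (card_le_card hsub).trans ((card_union_le _ _).trans ?_)
    refine Nat.add_le_add_left ((card_union_le _ _).trans (Nat.add_le_add ?_ ?_)) _
    · rw [card_range]
    refine (card_union_le _ _).trans (Nat.add_le_add ?_ ?_)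
    · rw [Nat.card_Ico]; omega
    · refine card_biUnion_le.trans ((sum_le_card_nsmul _ _ (V + 1) fun p _ => ?_).trans
        (le_of_eq (by rw [smul_eq_mul])))
      rw [Nat.card_Icc]; omega
  have hcard' : (D.card : ℝ) ≤ F.card + (K + ((V + 1) + G.card * (V + 1))) := by
    exact_mod_cast hcard
  have hn0 : (0 : ℝ) ≤ n := Nat.cast_nonneg n
  have hKn : (K : ℝ) ≤ c₀ / 8 * n := by
    have h3 : (n₄ : ℝ) ≤ n := by exact_mod_cast (show n₄ ≤ n by omega)
    have h4 : 8 * (K : ℝ) / c₀ ≤ n := hn₄.trans h3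
    rw [div_le_iff₀ hc₀] at h4
    linarith
  have h10 : c₀ / 4 * n ≤ G.card * (V + 1) := by linarith
  have h11 : (V : ℝ) + 1 ≤ (R + 2) * Real.log n := by nlinarith
  have h12 : (G.card : ℝ) * (V + 1) ≤ G.card * ((R + 2) * Real.log n) :=
    mul_le_mul_of_nonneg_left h11 (Nat.cast_nonneg _)
  have h13 : c₀ / (8 * (R + 2)) * n * (8 * (R + 2)) = c₀ * n := by field_simp
  rw [div_le_iff₀ (by linarith)]
  have h14 : 0 ≤ c₀ * n := by positivity
  have h15 : c₀ / (8 * (R + 2)) * n * (8 * (R + 2)) ≤ (G.card * Real.log n) * (8 * (R + 2)) := by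
    rw [h13]
    nlinarith
  exact le_of_mul_le_mul_right h15 (by positivity)

end Pool.Agent.H82.RPP
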