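import Pool.Agent.H82.RPP.All
import Pool.Agent.H82.RPP.PAL

/-!
# MP_76b9e7_nt, board rpw_modules: assembly of the windows which start at a prime
-/

set_option autoImplicit false

namespace Pool.Agent.H82.RPP.All

theorem tPAL : Pool.Agent.H82.RPP.T_PAL := Pool.Agent.H82.RPP.pf_PAL tEW tDEN

end Pool.Agent.H82.RPP.All
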