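import Pool.Agent.H82.RP.TD

/-! # Row FIN of the board rpw: the conclusion -/

set_option autoImplicit false

open Finset Real

namespace Pool.Agent.H82.RPP

open Pool.Agent.H82.RP

theorem pf_FIN (h1 : T_EW) (h2 : T_DEN) (h3 : T_ZOL) : T_FIN := by
  classical
  intro lam j hlam
  obtain ⟨c₀, hc₀, n₁, hn₁⟩ := h2 lam j hlam
  obtain ⟨R, hR, n₂, hn₂⟩ := h1 lam (c₀ / 4) hlam (by positivity)
  obtain ⟨c, hc, n₃, hn₃⟩ := h3 lam R j (c₀ / 4) hlam hR (by positivity)
  refine ⟨c, hc, n₁ + n₂ + n₃ + 1, fun n hn => ?_⟩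
  by_contra hcon
  push Not at hcon
  obtain ⟨B, hB1, hB2, hB3⟩ := hn₃ n (by omega) hcon
  have hD := hn₁ n (by omega)
  have hF := hn₂ n (by omega)
  set D := (Icc 1 n).filter (fun k : ℕ => j < XL lam k) with hDdef
  set F := (Icc 1 n).filter (fun k : ℕ => ∀ m : ℕ, k ≤ m → (m : ℝ) ≤ k + R * Real.log n →
    XL lam m ≠ 0) with hFdef
  have hn0 : (0 : ℝ) < n := by
    have : 0 < n := by omega
    exact_mod_cast this
  have hlt : (B ∪ F).card < D.card := by
    have h4 : ((B ∪ F).card : ℝ) ≤ B.card + F.card := by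
      exact_mod_cast card_union_le B F
    have h5 : ((B ∪ F).card : ℝ) < D.card := by
      have h6 : 0 < c₀ * n := mul_pos hc₀ hn0
      linarith
    exact_mod_cast h5
  obtain ⟨k, hkD, hkBF⟩ := exists_mem_notMem_of_card_lt_card hlt
  rw [mem_union, not_or] at hkBF
  obtain ⟨hkB, hkF⟩ := hkBF
  rw [hDdef, mem_filter] at hkD
  rw [hFdef, mem_filter, not_and] at hkF
  have hkF' := hkF hkD.1
  push Not at hkF'
  obtain ⟨m, hm1, hm2, hm3⟩ := hkF'
  have hlog : 0 ≤ R * Real.log n := by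
    refine mul_nonneg hR.le (Real.log_nonneg ?_)
    have : 1 ≤ n := by omega
    exact_mod_cast this
  rcases hB3 k hkD.1 hkB with h7 | h7
  · have h8 := h7 k le_rfl (by linarith)
    omega
  · have h8 := h7 m hm1 hm2
    omega

end Pool.Agent.H82.RPP
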